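import Mathlib

set_option autoImplicit false

/-! Loneliness gap under translation. -/

namespace Pool.Agent.Y691.LR

open Finset

/-- distance from `x` to the nearest integer -/
noncomputable def distInt (x : ℝ) : ℝ := |x - round x|

/-- the loneliness gap `κ(V) = sup_t min_{v ∈ V} ‖t v‖` -/
noncomputable def gap (V : Finset ℕ) : ℝ := ⨆ t : ℝ, ⨅ v : V, distInt (t * ((v : ℕ) : ℝ))

theorem distInt_nonneg (x : ℝ) : 0 ≤ distInt x := abs_nonneg _

theorem distInt_le (x : ℝ) : distInt x ≤ 1 / 2 := abs_sub_round x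

theorem distInt_le_abs (x : ℝ) (m : ℤ) : distInt x ≤ |x - m| := round_le x m

theorem bdd_inner (V : Finset ℕ) (t : ℝ) :
    BddBelow (Set.range fun v : V => distInt (t * ((v : ℕ) : ℝ))) :=
  ⟨0, by rintro _ ⟨v, rfl⟩; exact distInt_nonneg _⟩

theorem inner_le {V : Finset ℕ} {v : ℕ} (hv : v ∈ V) (t : ℝ) :
    (⨅ v : V, distInt (t * ((v : ℕ) : ℝ))) ≤ distInt (t * (v : ℝ)) :=
  ciInf_le (bdd_inner V t) ⟨v, hv⟩

theorem bdd_outer {V : Finset ℕ} (hV : V.Nonempty) :
    BddAbove (Set.range fun t : ℝ => ⨅ v : V, distInt (t * ((v : ℕ) : ℝ))) := by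
  obtain ⟨v, hv⟩ := hV
  refine ⟨1 / 2, ?_⟩
  rintro _ ⟨t, rfl⟩
  exact (inner_le hv t).trans (distInt_le _)

theorem gap_le {V : Finset ℕ} {c : ℝ} (h : ∀ t : ℝ, ∃ v ∈ V, distInt (t * (v : ℝ)) ≤ c) :
    gap V ≤ c := by
  refine ciSup_le fun t => ?_
  obtain ⟨v, hv, h⟩ := h t
  exact (inner_le hv t).trans h

theorem le_gap {V : Finset ℕ} (hV : V.Nonempty) {c : ℝ} (t : ℝ)
    (h : ∀ v ∈ V, c ≤ distInt (t * (v : ℝ))) : c ≤ gap V := by
  have : Nonempty V := ⟨⟨hV.choose, hV.choose_spec⟩⟩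
  refine le_trans ?_ (le_ciSup (bdd_outer hV) t)
  exact le_ciInf fun v => h v v.2

theorem le_distInt {x c : ℝ} (m : ℤ) (h1 : m + c ≤ x) (h2 : x ≤ m + 1 - c) : c ≤ distInt x := by
  unfold distInt
  rcases le_or_gt (round x) m with h | h
  · have : (round x : ℝ) ≤ m := by exact_mod_cast h
    exact le_trans (by linarith) (le_abs_self _)
  · have : (m : ℝ) + 1 ≤ round x := by exact_mod_cast h
    exact le_trans (by linarith) (neg_le_abs _)

/-- `{c, 2c, …, nc}` -/
theorem gap_multiples {n c : ℕ} (hn : 0 < n) (hc : 0 < c) :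
    gap ((range n).image fun i => c * (i + 1)) = 1 / (n + 1) := by
  have hc' : (0 : ℝ) < c := by exact_mod_cast hc
  have hn' : (0 : ℝ) < n := by exact_mod_cast hn
  apply le_antisymm
  · refine gap_le fun t => ?_
    obtain ⟨k, hk0, hkn, h⟩ := Real.exists_nat_abs_mul_sub_round_le (t * c) hn
    refine ⟨c * k, ?_, ?_⟩
    · rw [mem_image]
      exact ⟨k - 1, mem_range.2 (by omega), by rw [Nat.sub_add_cancel hk0]⟩
    · have e : t * ((c * k : ℕ) : ℝ) = k * (t * c) := by push_cast; ring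
      rw [e]
      exact h
  · refine le_gap ?_ (1 / (c * (n + 1))) ?_
    · exact ⟨c * (0 + 1), mem_image.2 ⟨0, mem_range.2 hn, rfl⟩⟩
    · intro v hv
      obtain ⟨i, hi, rfl⟩ := mem_image.1 hv
      have hi' : (i : ℝ) + 1 ≤ n := by exact_mod_cast mem_range.1 hi
      have hi0 : (0 : ℝ) ≤ i := by positivity
      have e : 1 / ((c : ℝ) * (n + 1)) * ((c * (i + 1) : ℕ) : ℝ) = (i + 1) / (n + 1) := by
        push_cast
        field_simp
      rw [e]
      refine le_distInt 0 ?_ ?_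
      · push_cast
        rw [zero_add]
        gcongr
        linarith
      · push_cast
        rw [zero_add, le_sub_iff_add_le, ← add_div, div_le_one (by positivity)]
        linarith

theorem gap_le_half {V : Finset ℕ} (hV : V.Nonempty) : gap V ≤ 1 / 2 := by
  obtain ⟨v, hv⟩ := hV
  exact gap_le fun t => ⟨v, hv, distInt_le _⟩

theorem gap_odd {V : Finset ℕ} (hV : V.Nonempty) (h : ∀ v ∈ V, Odd v) : gap V = 1 / 2 := by
  refine le_antisymm (gap_le_half hV) (le_gap hV (1 / 2) fun v hv => ?_)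
  obtain ⟨k, rfl⟩ := h v hv
  refine le_distInt k ?_ ?_
  · push_cast
    linarith
  · push_cast
    linarith

theorem gap_third {V : Finset ℕ} (hV : V.Nonempty) (h : ∀ v ∈ V, v % 3 = 1) : 1 / 3 ≤ gap V := by
  refine le_gap hV (1 / 3) fun v hv => ?_
  obtain ⟨k, rfl⟩ : ∃ k, v = 3 * k + 1 := ⟨v / 3, by have := h v hv; omega⟩
  refine le_distInt k ?_ ?_
  · push_cast
    linarith
  · push_cast
    linarith

theorem gap_one_four {V : Finset ℕ} (h1 : 1 ∈ V) (h4 : 4 ∈ V) : gap V ≤ 2 / 5 := by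
  refine gap_le fun t => ?_
  by_cases h : distInt (t * ((1 : ℕ) : ℝ)) ≤ 2 / 5
  · exact ⟨1, h1, h⟩
  · refine ⟨4, h4, ?_⟩
    push Not at h
    have hm : distInt (t * ((1 : ℕ) : ℝ)) = |t - round t| := by
      unfold distInt
      simp
    rw [hm] at h
    have hle := abs_sub_round t
    set m := round t
    rcases le_total 0 (t - m) with h0 | h0
    · rw [abs_of_nonneg h0] at h hle
      refine (distInt_le_abs _ (4 * m + 2)).trans ?_
      rw [abs_le]
      push_cast
      constructor <;> linarith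
    · rw [abs_of_nonpos h0] at h hle
      refine (distInt_le_abs _ (4 * m - 2)).trans ?_
      rw [abs_le]
      push_cast
      constructor <;> linarith

theorem gap_single {V : Finset ℕ} (hV : V.card = 1) (h : ∀ v ∈ V, 0 < v) : gap V = 1 / 2 := by
  obtain ⟨v, rfl⟩ := card_eq_one.1 hV
  have hv : 0 < v := h v (mem_singleton_self v)
  have hv' : (0 : ℝ) < v := by exact_mod_cast hv
  refine le_antisymm (gap_le_half ⟨v, mem_singleton_self v⟩)
    (le_gap ⟨v, mem_singleton_self v⟩ (1 / (2 * v)) fun w hw => ?_)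
  rw [mem_singleton.1 hw]
  have e : 1 / (2 * (v : ℝ)) * v = 1 / 2 := by field_simp
  rw [e]
  refine le_distInt 0 ?_ ?_ <;> norm_num

end Pool.Agent.Y691.LR
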