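import Pool.Agent.Y691.LR.Gap

set_option autoImplicit false

namespace Pool.Agent.Y691.LR

open Finset

theorem image_add {n : ℕ} (b r a : ℕ) (f : ℕ → ℕ) (h : ∀ i, a + (b * i + r) = f i) :
    ((range n).image fun i => b * i + r).image (a + ·) = (range n).image f := by
  rw [image_image]
  refine image_congr fun i _ => ?_
  exact h i

theorem card_ap {n : ℕ} (b r : ℕ) (hb : 0 < b) :
    ((range n).image fun i => b * i + r).card = n := by
  rw [card_image_of_injective, card_range]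
  intro i j h
  have : b * i = b * j := by simpa using h
  exact Nat.eq_of_mul_eq_mul_left hb this

theorem half_case {n : ℕ} (hn : 2 ≤ n) :
    ∃ (V : Finset ℕ) (a : ℕ), V.card = n ∧ (∀ v ∈ V, 0 < v) ∧ 0 < a ∧
      gap V = 1 / 2 ∧ gap (V.image (a + ·)) = 1 / (n + 1) := by
  refine ⟨(range n).image fun i => 2 * i + 1, 1, card_ap 2 1 (by norm_num), ?_, one_pos, ?_, ?_⟩
  · intro v hv
    obtain ⟨i, _, rfl⟩ := mem_image.1 hv
    omega
  · refine gap_odd ⟨2 * 0 + 1, mem_image.2 ⟨0, mem_range.2 (by omega), rfl⟩⟩ ?_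
    intro v hv
    obtain ⟨i, _, rfl⟩ := mem_image.1 hv
    exact ⟨i, rfl⟩
  · rw [image_add 2 1 1 (fun i => 2 * (i + 1)) (fun i => by ring)]
    exact gap_multiples (by omega) (by norm_num)

theorem third_case {n : ℕ} (hn : 3 ≤ n) :
    ∃ (V : Finset ℕ) (a : ℕ), V.card = n ∧ (∀ v ∈ V, 0 < v) ∧ 0 < a ∧
      1 / 3 ≤ gap V ∧ gap V ≤ 2 / 5 ∧ gap (V.image (a + ·)) = 1 / (n + 1) := by
  refine ⟨(range n).image fun i => 3 * i + 1, 2, card_ap 3 1 (by norm_num), ?_, two_pos, ?_, ?_, ?_⟩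
  · intro v hv
    obtain ⟨i, _, rfl⟩ := mem_image.1 hv
    omega
  · refine gap_third ⟨3 * 0 + 1, mem_image.2 ⟨0, mem_range.2 (by omega), rfl⟩⟩ ?_
    intro v hv
    obtain ⟨i, _, rfl⟩ := mem_image.1 hv
    omega
  · exact gap_one_four (mem_image.2 ⟨0, mem_range.2 (by omega), rfl⟩)
      (mem_image.2 ⟨1, mem_range.2 (by omega), rfl⟩)
  · rw [image_add 3 1 2 (fun i => 3 * (i + 1)) (fun i => by ring)]
    exact gap_multiples (by omega) (by norm_num)

theorem iff_one {n : ℕ} (hn : 1 ≤ n) :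
    (∀ V : Finset ℕ, V.card = n → (∀ v ∈ V, 0 < v) → ∀ a : ℕ, 0 < a →
      gap V ≤ gap (V.image (a + ·))) ↔ n = 1 := by
  constructor
  · intro h
    by_contra h1
    obtain ⟨V, a, hV, hpos, ha, h2, h3⟩ := half_case (n := n) (by omega)
    have h4 := h V hV hpos a ha
    rw [h2, h3] at h4
    have hn2 : (2 : ℝ) ≤ n := by exact_mod_cast (by omega : 2 ≤ n)
    rw [div_le_div_iff₀ (by norm_num) (by linarith)] at h4
    linarith
  · rintro rfl V hV hpos a _
    rw [gap_single hV hpos, gap_single (V := V.image (a + ·))]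
    · rw [card_image_of_injective _ (add_right_injective a), hV]
    · intro v hv
      obtain ⟨w, hw, rfl⟩ := mem_image.1 hv
      have := hpos w hw
      omega

end Pool.Agent.Y691.LR
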